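import Pool.Agent.H39.TO.Targets

/-!
# Board toh_modules, row BEB: the polyhedron of a B-structure
-/

set_option autoImplicit false

namespace Pool.Agent.H20.TOH

open Pool.Agent.H57.CP Pool.Agent.H39.TO

variable {v : H3} {r a b s : Equiv.Perm H3}

theorem iso_one : IsIso 1 := fun _ _ => rfl

theorem iso_mul {g h : Equiv.Perm H3} (hg : IsIso g) (hh : IsIso h) : IsIso (g * h) := by
  intro x y
  rw [Equiv.Perm.mul_apply, Equiv.Perm.mul_apply, hg, hh]

theorem iso_inv {g : Equiv.Perm H3} (hg : IsIso g) : IsIso g⁻¹ := by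
  intro x y
  rw [← hg (g⁻¹ x) (g⁻¹ y)]
  simp

theorem iso_closure {A : Set (Equiv.Perm H3)} (hA : ∀ g ∈ A, IsIso g) {g : Equiv.Perm H3}
    (hg : g ∈ Subgroup.closure A) : IsIso g := by
  induction hg using Subgroup.closure_induction with
  | mem x hx => exact hA x hx
  | one => exact iso_one
  | mul x y _ _ hx hy => exact iso_mul hx hy
  | inv x _ hx => exact iso_inv hx

theorem image_mul (g h : Equiv.Perm H3) (e : Set H3) :
    (g * h : Equiv.Perm H3) '' e = g '' (h '' e) := by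
  rw [Equiv.Perm.coe_mul, Set.image_comp]

theorem image_one (e : Set H3) : (1 : Equiv.Perm H3) '' e = e := by
  simp

theorem image2_mul (g h : Equiv.Perm H3) (f : Set (Set H3)) :
    (Set.image g) '' ((Set.image h) '' f) = (Set.image (g * h : Equiv.Perm H3)) '' f := by
  rw [← Set.image_comp]
  congr 1
  funext e
  exact (image_mul g h e).symm

theorem image2_injective (g : Equiv.Perm H3) :
    Function.Injective (fun f : Set (Set H3) => (Set.image g) '' f) :=
  Set.image_injective.mpr (Set.image_injective.mpr g.injective)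

theorem mem_image2 (g : Equiv.Perm H3) (e : Set H3) (f : Set (Set H3)) :
    g '' e ∈ (Set.image g) '' f ↔ e ∈ f :=
  (Set.image_injective.mpr g.injective).mem_set_image

theorem rtg_symm {α : Type*} {R : α → α → Prop} (hR : ∀ a b, R a b → R b a) {x y : α}
    (h : Relation.ReflTransGen R x y) : Relation.ReflTransGen R y x := by
  induction h with
  | refl => exact Relation.ReflTransGen.refl
  | tail _ h2 ih => exact ih.head (hR _ _ h2)

theorem rtg_closure {α : Type*} (R : α → α → Prop) (hR : ∀ x y, R x y → R y x)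
    (A : Set (Equiv.Perm H3)) (φ : Equiv.Perm H3 → α)
    (hgen : ∀ k ∈ Subgroup.closure A, ∀ t ∈ A, Relation.ReflTransGen R (φ k) (φ (k * t)))
    (g h : Equiv.Perm H3) (hg : g ∈ Subgroup.closure A) (hh : h ∈ Subgroup.closure A) :
    Relation.ReflTransGen R (φ g) (φ h) := by
  have key : ∀ x ∈ Subgroup.closure A, ∀ k ∈ Subgroup.closure A,
      Relation.ReflTransGen R (φ k) (φ (k * x)) := by
    intro x hx
    induction hx using Subgroup.closure_induction with
    | mem x hx => exact fun k hk => hgen k hk x hx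
    | one =>
      intro k _
      rw [mul_one]
    | mul x y hx _ ihx ihy =>
      intro k hk
      rw [← mul_assoc]
      exact (ihx k hk).trans (ihy (k * x) (mul_mem hk hx))
    | inv x hx ih =>
      intro k hk
      have h3 := ih (k * x⁻¹) (mul_mem hk (inv_mem hx))
      rw [inv_mul_cancel_right] at h3
      exact rtg_symm hR h3
  have h3 := key (g⁻¹ * h) (mul_mem (inv_mem hg) hh) g hg
  rwa [mul_inv_cancel_left] at h3

theorem left_mem (x y : Equiv.Perm H3) : x ∈ Subgroup.closure ({x, y} : Set (Equiv.Perm H3)) :=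
  Subgroup.subset_closure (Set.mem_insert _ _)

theorem right_mem (x y : Equiv.Perm H3) : y ∈ Subgroup.closure ({x, y} : Set (Equiv.Perm H3)) :=
  Subgroup.subset_closure (Set.mem_insert_of_mem _ rfl)

theorem base_mem (x y : Equiv.Perm H3) (e : Set H3) : e ∈ fc x y e :=
  ⟨1, one_mem _, (image_one e).symm⟩

theorem fc_image {x y h : Equiv.Perm H3} (hh : h ∈ Subgroup.closure {x, y}) (e : Set H3) :
    (Set.image h) '' fc x y e = fc x y e := by
  ext w
  constructor
  · rintro ⟨_, ⟨k, hk, rfl⟩, rfl⟩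
    exact ⟨h * k, mul_mem hh hk, (image_mul h k e).symm⟩
  · rintro ⟨k, hk, rfl⟩
    refine ⟨(h⁻¹ * k : Equiv.Perm H3) '' e, ⟨h⁻¹ * k, mul_mem (inv_mem hh) hk, rfl⟩, ?_⟩
    rw [← image_mul, mul_inv_cancel_left]

theorem edges_at (h : Equiv.Perm H3) (f : Set (Set H3)) (v : H3) :
    {e' | e' ∈ (Set.image h) '' f ∧ h v ∈ e'} = (Set.image h) '' {e | e ∈ f ∧ v ∈ e} := by
  ext e'
  constructor
  · rintro ⟨⟨e1, he1, rfl⟩, hmem⟩
    exact ⟨e1, ⟨he1, (h.injective.mem_set_image).1 hmem⟩, rfl⟩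
  · rintro ⟨e1, ⟨he1, hv⟩, rfl⟩
    exact ⟨⟨e1, he1, rfl⟩, v, hv, rfl⟩

theorem pair_cancel {v x y : H3} (h : ({v, x} : Set H3) = {v, y}) : x = y := by
  rw [Set.pair_eq_pair_iff] at h
  rcases h with ⟨-, h⟩ | ⟨h1, h2⟩
  · exact h
  · rw [h2, h1]

/-- the data of one kind of faces -/
theorem vf_aux (hrv : r (r v) = v) (hs : {e | e ∈ fc r s {v, r v} ∧ v ∈ e} =
      {{v, r v}, {v, s (r v)}}) (hne : r v ≠ s (r v)) (g : Equiv.Perm H3) (e : Set H3)
    (he : e ∈ (Set.image g) '' fc r s {v, r v}) (x : H3) (hx : x ∈ e) :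
    {e' | e' ∈ (Set.image g) '' fc r s {v, r v} ∧ x ∈ e'}.ncard = 2 := by
  obtain ⟨e1, ⟨k, hk, rfl⟩, rfl⟩ := he
  obtain ⟨l, hl, hx'⟩ : ∃ l ∈ Subgroup.closure {r, s}, x = (g * l : Equiv.Perm H3) v := by
    obtain ⟨y, ⟨z, hz, rfl⟩, rfl⟩ := hx
    rcases hz with rfl | hz
    · exact ⟨k, hk, rfl⟩
    · rw [Set.mem_singleton_iff] at hz
      subst hz
      exact ⟨k * r, mul_mem hk (left_mem r s), rfl⟩
  rw [hx', ← fc_image hl, image2_mul, edges_at, hs,
    Set.ncard_image_of_injective _ (Set.image_injective.mpr (g * l).injective), Set.ncard_pair]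
  exact fun h => hne (pair_cancel h)

theorem cf_aux (hrv : r (r v) = v) (hsv : s v = v) (g : Equiv.Perm H3) (e e' : Set H3)
    (he : e ∈ (Set.image g) '' fc r s {v, r v}) (he' : e' ∈ (Set.image g) '' fc r s {v, r v}) :
    Relation.ReflTransGen (fun p q => q ∈ (Set.image g) '' fc r s {v, r v} ∧ (p ∩ q).Nonempty)
      e e' := by
  obtain ⟨e1, ⟨k, hk, rfl⟩, rfl⟩ := he
  obtain ⟨e2, ⟨l, hl, rfl⟩, rfl⟩ := he'
  have hin : ∀ k ∈ Subgroup.closure {r, s},
      (g * k : Equiv.Perm H3) '' {v, r v} ∈ (Set.image g) '' fc r s {v, r v} := fun k hk =>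
    ⟨k '' {v, r v}, ⟨k, hk, rfl⟩, (image_mul g k _).symm⟩
  have h := rtg_closure (fun p q : Set H3 => p ∈ (Set.image g) '' fc r s {v, r v} ∧
    q ∈ (Set.image g) '' fc r s {v, r v} ∧ (p ∩ q).Nonempty)
    (fun p q h => ⟨h.2.1, h.1, by rw [Set.inter_comm]; exact h.2.2⟩) {r, s}
    (fun k => (g * k : Equiv.Perm H3) '' {v, r v}) ?_ k l hk hl
  · rw [← image_mul, ← image_mul]
    exact Relation.ReflTransGen.mono (fun p q h => h.2) _ _ h
  · intro k hk t ht
    rcases ht with rfl | ht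
    · have h1 : (t : Equiv.Perm H3) '' {v, t v} = {v, t v} := by
        rw [Set.image_pair, hrv, Set.pair_comm]
      rw [← mul_assoc, image_mul (g * k) t, h1]
    · rw [Set.mem_singleton_iff] at ht
      subst ht
      refine Relation.ReflTransGen.single ⟨hin k hk, hin (k * t) (mul_mem hk (right_mem r t)),
        (g * k : Equiv.Perm H3) v, ⟨v, Set.mem_insert _ _, rfl⟩, ⟨v, Set.mem_insert _ _, ?_⟩⟩
      rw [← mul_assoc, Equiv.Perm.mul_apply (g * k) t, hsv]

theorem pf_BEB (hBEA : T_BEA) : T_BEB := by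
  intro v r a b B
  obtain ⟨-, ha, hb, hra, hrb, hab, hfa, hfb⟩ := hBEA v r a b B
  have hrr : r (r v) = v := by
    rw [← Equiv.Perm.mul_apply, B.rr]
    rfl
  have hrm : r ∈ G3 r a b := Subgroup.subset_closure (by simp)
  have ham : a ∈ G3 r a b := Subgroup.subset_closure (by simp)
  have hbm : b ∈ G3 r a b := Subgroup.subset_closure (by simp)
  have hsra : Subgroup.closure {r, a} ≤ G3 r a b := Subgroup.closure_mono (by
    intro x hx
    rcases hx with rfl | hx
    · simp
    · rw [Set.mem_singleton_iff] at hx; simp [hx])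
  have hsrb : Subgroup.closure {r, b} ≤ G3 r a b := Subgroup.closure_mono (by
    intro x hx
    rcases hx with rfl | hx
    · simp
    · rw [Set.mem_singleton_iff] at hx; simp [hx])
  have hsab : Subgroup.closure {a, b} ≤ G3 r a b := Subgroup.closure_mono (by
    intro x hx
    rcases hx with rfl | hx
    · simp
    · rw [Set.mem_singleton_iff] at hx; simp [hx])
  have hrimg : (r : Equiv.Perm H3) '' {v, r v} = {v, r v} := by
    rw [Set.image_pair, hrr, Set.pair_comm]
  have hfv : ∀ k ∈ Subgroup.closure {a, b}, k v = v := by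
    intro k hk
    induction hk using Subgroup.closure_induction with
    | mem x hx =>
      rcases hx with rfl | hx
      · exact B.av
      · rw [Set.mem_singleton_iff] at hx; rw [hx]; exact B.bv
    | one => rfl
    | mul x y _ _ hx hy => rw [Equiv.Perm.mul_apply, hy, hx]
    | inv x _ hx => rw [Equiv.Perm.inv_eq_iff_eq]; exact hx.symm
  have hisog : ∀ g ∈ G3 r a b, IsIso g := by
    intro g hg
    refine iso_closure ?_ hg
    intro x hx
    rcases hx with rfl | rfl | hx
    · exact B.ir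
    · exact B.ia
    · rw [Set.mem_singleton_iff] at hx; rw [hx]; exact B.ib
  -- the edges at the vertex `g v`
  have hedge : ∀ g ∈ G3 r a b, ∀ e ∈ (KB v r a b).E, g v ∈ e →
      ∃ k ∈ Subgroup.closure {a, b}, e = (g * k : Equiv.Perm H3) '' {v, r v} := by
    intro g hg e he hv
    obtain ⟨h, hh, hv1, rfl⟩ : ∃ h ∈ G3 r a b, h v = g v ∧ e = h '' {v, r v} := by
      obtain ⟨h, hh, rfl⟩ := he
      obtain ⟨y, hy, hy'⟩ := hv
      rcases hy with rfl | hy
      · exact ⟨h, hh, hy', rfl⟩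
      · rw [Set.mem_singleton_iff] at hy
        subst hy
        refine ⟨h * r, mul_mem hh hrm, hy', ?_⟩
        rw [image_mul, hrimg]
    have hk := B.st (g⁻¹ * h) (mul_mem (inv_mem hg) hh) (by
      rw [Equiv.Perm.mul_apply, hv1]; simp)
    exact ⟨g⁻¹ * h, hk, by rw [mul_inv_cancel_left]⟩
  refine ⟨⟨v, 1, one_mem _, rfl⟩, ?_, ?_, ?_, ?_, ?_, ?_, ?_, ?_, ?_⟩
  · rintro e ⟨g, hg, rfl⟩
    refine ⟨g v, ⟨g, hg, rfl⟩, g (r v), ⟨g * r, mul_mem hg hrm, rfl⟩, ?_, ?_⟩
    · exact fun h => B.rv (g.injective h).symm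
    · rw [Set.image_pair]
  · rintro f ⟨g, hg, rfl | rfl⟩
    · constructor
      · rintro e ⟨e', ⟨k, hk, rfl⟩, rfl⟩
        exact ⟨g * k, mul_mem hg (hsra hk), by rw [image_mul]⟩
      · exact ⟨_, _, base_mem _ _ _, rfl⟩
    · constructor
      · rintro e ⟨e', ⟨k, hk, rfl⟩, rfl⟩
        exact ⟨g * k, mul_mem hg (hsrb hk), by rw [image_mul]⟩
      · exact ⟨_, _, base_mem _ _ _, rfl⟩
  · rintro x ⟨g, hg, rfl⟩
    exact ⟨g '' {v, r v}, ⟨g, hg, rfl⟩, v, by simp, rfl⟩
  · rintro e ⟨g, hg, rfl⟩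
    have h3 : {f | f ∈ (KB v r a b).F ∧ g '' {v, r v} ∈ f} =
        (fun f : Set (Set H3) => (Set.image g) '' f) ''
          {fc r a {v, r v}, fc r b {v, r v}} := by
      ext f
      constructor
      · rintro ⟨⟨h, hh, hf⟩, hmem⟩
        have hgh := mul_mem (inv_mem hg) hh
        have h4 : ∀ f' : Set (Set H3), (Set.image h) '' f' =
            (Set.image g) '' ((Set.image (g⁻¹ * h : Equiv.Perm H3)) '' f') := by
          intro f'
          rw [image2_mul, mul_inv_cancel_left]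
        rcases hf with rfl | rfl
        · rw [h4, mem_image2] at hmem
          exact ⟨_, Or.inl rfl, by rw [h4, hfa _ hgh hmem]⟩
        · rw [h4, mem_image2] at hmem
          exact ⟨_, Or.inr rfl, by rw [h4, hfb _ hgh hmem]⟩
      · rintro ⟨f', hf', rfl⟩
        rcases hf' with rfl | hf'
        · exact ⟨⟨g, hg, Or.inl rfl⟩, (mem_image2 g _ _).2 (base_mem _ _ _)⟩
        · rw [Set.mem_singleton_iff] at hf'
          subst hf'
          exact ⟨⟨g, hg, Or.inr rfl⟩, (mem_image2 g _ _).2 (base_mem _ _ _)⟩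
    rw [h3, Set.ncard_image_of_injective _ (image2_injective g), Set.ncard_pair]
    intro heq
    rw [heq] at ha
    have h5 : ({v, a (r v)} : Set H3) ∈ ({{v, r v}, {v, b (r v)}} : Set (Set H3)) := by
      rw [← hb, ha]
      exact Or.inr rfl
    rcases h5 with h5 | h5
    · exact hra (pair_cancel h5).symm
    · exact hab (pair_cancel h5)
  · rintro f ⟨g, hg, rfl | rfl⟩ e he x hx
    · exact vf_aux hrr ha hra g e he x hx
    · exact vf_aux hrr hb hrb g e he x hx
  · rintro f ⟨g, hg, rfl | rfl⟩ e he e' he'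
    · exact cf_aux hrr B.av g e e' he he'
    · exact cf_aux hrr B.bv g e e' he he'
  · rintro x ⟨g, hg, rfl⟩ e he hxe e' he' hxe'
    obtain ⟨k, hk, rfl⟩ := hedge g hg e he hxe
    obtain ⟨l, hl, rfl⟩ := hedge g hg e' he' hxe'
    have h := rtg_closure (fun p q : Set H3 => g v ∈ p ∧ g v ∈ q ∧
      ∃ f ∈ (KB v r a b).F, p ∈ f ∧ q ∈ f)
      (fun p q h => ⟨h.2.1, h.1, h.2.2.imp fun f hf => ⟨hf.1, hf.2.2, hf.2.1⟩⟩) {a, b}
      (fun k => (g * k : Equiv.Perm H3) '' {v, r v}) ?_ k l hk hl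
    · exact Relation.ReflTransGen.mono (fun p q h => h.2) _ _ h
    · intro k hk t ht
      have hvk : g v ∈ (g * k : Equiv.Perm H3) '' {v, r v} :=
        ⟨v, by simp, by rw [Equiv.Perm.mul_apply, hfv k hk]⟩
      have htm : t ∈ Subgroup.closure {a, b} := Subgroup.subset_closure ht
      have hvkt : g v ∈ (g * (k * t) : Equiv.Perm H3) '' {v, r v} :=
        ⟨v, by simp, by rw [Equiv.Perm.mul_apply, hfv _ (mul_mem hk htm)]⟩
      refine Relation.ReflTransGen.single ⟨hvk, hvkt, ?_⟩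
      rcases ht with rfl | ht
      · refine ⟨(Set.image (g * k : Equiv.Perm H3)) '' fc r t {v, r v},
          ⟨g * k, mul_mem hg (hsab hk), Or.inl rfl⟩, (mem_image2 _ _ _).2 (base_mem _ _ _), ?_⟩
        rw [← mul_assoc, image_mul (g * k) t]
        exact (mem_image2 _ _ _).2 ⟨t, right_mem r t, rfl⟩
      · rw [Set.mem_singleton_iff] at ht
        subst ht
        refine ⟨(Set.image (g * k : Equiv.Perm H3)) '' fc r t {v, r v},
          ⟨g * k, mul_mem hg (hsab hk), Or.inr rfl⟩, (mem_image2 _ _ _).2 (base_mem _ _ _), ?_⟩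
        rw [← mul_assoc, image_mul (g * k) t]
        exact (mem_image2 _ _ _).2 ⟨t, right_mem r t, rfl⟩
  · rintro x ⟨g, hg, rfl⟩ y ⟨h, hh, rfl⟩
    refine rtg_closure (fun p q : H3 => ({p, q} : Set H3) ∈ (KB v r a b).E)
      (fun p q h => by rwa [Set.pair_comm]) {r, a, b} (fun k => k v) ?_ g h hg hh
    intro k hk t ht
    rcases ht with rfl | rfl | ht
    · refine Relation.ReflTransGen.single ⟨k, hk, ?_⟩
      rw [Set.image_pair]
      rfl
    · rw [Equiv.Perm.mul_apply, B.av]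
    · rw [Set.mem_singleton_iff] at ht
      rw [ht, Equiv.Perm.mul_apply, B.bv]
  · rintro x ⟨g, hg, rfl⟩
    obtain ⟨ε, hε, hd⟩ := B.di
    refine ⟨ε, hε, ?_⟩
    rintro y ⟨h, hh, rfl⟩ hne
    have h3 := hd (g⁻¹ * h) (mul_mem (inv_mem hg) hh) (by
      rw [Equiv.Perm.mul_apply, Ne, Equiv.Perm.inv_eq_iff_eq]
      exact fun h => hne h)
    rw [← hisog _ (inv_mem hg) (g v) (h v)]
    have h4 : g⁻¹ (g v) = v := by simp
    rwa [h4, ← Equiv.Perm.mul_apply]

end Pool.Agent.H20.TOH
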