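import Pool.Agent.H20.TOH.RFDA

/-!
# Board toh_modules, row RFD: the reflection data of a polyhedron of class `{0, 1}` with odd faces
-/

set_option autoImplicit false

namespace Pool.Agent.H20.TOH.R

open Pool.Agent.H57.CP Pool.Agent.H39.TO

theorem fix_orth {a x : V4} (ha : mk a a = -1) (h : refl a x = x) : mk a x = 0 := by
  have h1 := congrArg (mk a) h
  rw [refl_eq, mk_add_right, mk_smul_right, ha] at h1
  linarith

/-- conjugation of words by a reflection -/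
theorem conj_words {V : Set H3} {M : V4} (hM : mk M M = -1) {μ : Equiv.Perm H3}
    (hext : Ext (refl M) μ) {X X' : Set (Equiv.Perm H3)} {Y Y' : Set (Module.End ℝ V4)}
    (hXV : ∀ g ∈ X, ∀ x, g x ∈ V ↔ x ∈ V) (h1 : ∀ g ∈ X, ∃ A ∈ Y, RV V g A)
    (hY : ∀ A ∈ Y, A * A = 1) (hYY : ∀ A ∈ Y, refl M * A * refl M ∈ Y')
    (hXV' : ∀ g ∈ X', ∀ x, g x ∈ V ↔ x ∈ V) (h2 : ∀ A ∈ Y', ∃ g ∈ X', RV V g A)
    {g : Equiv.Perm H3} (hg : g ∈ Subgroup.closure X) :
    ∃ g' ∈ Subgroup.closure X', (∀ x, g' x ∈ V ↔ x ∈ V) ∧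
      ∀ x ∈ V, μ x ∈ V → μ (g x) = g' (μ x) := by
  obtain ⟨hgV, A, hA, hA'⟩ := words hXV h1 hY hg
  obtain ⟨g', hg', hg'V, hg'A⟩ := words' hXV' h2 (conj_mem (refl_sq hM) hYY hA)
  refine ⟨g', hg', hg'V, fun x hx hμx => ?_⟩
  apply Subtype.ext
  rw [← hg'A (μ x) hμx, ← hext x, ← hext (g x), ← hA' x hx, Module.End.mul_apply,
    Module.End.mul_apply]
  have h3 := congrArg (fun f : Module.End ℝ V4 => f x.1) (refl_sq hM)
  simp only [Module.End.mul_apply, Module.End.one_apply] at h3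
  rw [h3]

theorem image_mul (g h : Equiv.Perm H3) (e : Set H3) :
    (g * h : Equiv.Perm H3) '' e = g '' (h '' e) := by
  rw [Equiv.Perm.coe_mul, Set.image_comp]

/-- the reflection `M` would be a symmetry -/
theorem sym_aux {K : Geo} {v v1 : H3} {f f' : Set (Set H3)} {a b c : Equiv.Perm H3} {p q : ℕ}
    (D : D01 K v v1 f f' a b c p q) {n0 n1 n2 : V4} (u0 : mk n0 n0 = -1) (u1 : mk n1 n1 = -1)
    (u2 : mk n2 n2 = -1) (ra : RV K.V a (refl n0)) (rb : RV K.V b (refl n1))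
    (rc : RV K.V c (refl n2)) {M : V4} (hM : mk M M = -1) (h0 : mk M n0 = 0)
    (hv : mk M v.1 = 0) (h12 : refl M n1 = n2 ∨ refl M n1 = -n2) {μ : Equiv.Perm H3}
    (hμ : IsIso μ) (hext : Ext (refl M) μ) : False := by
  have hR2 : refl M * refl M = 1 := refl_sq hM
  have c0 : refl M * refl n0 * refl M = refl n0 := by
    rw [refl_conj hM, refl_fix h0]
  have c1 : refl M * refl n1 * refl M = refl n2 := by
    rw [refl_conj hM]
    rcases h12 with h | h
    · rw [h]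
    · rw [h, refl_neg]
  have c2 : refl M * refl n2 * refl M = refl n1 := by
    rw [← c1]
    have : refl M * (refl M * refl n1 * refl M) * refl M =
        (refl M * refl M) * refl n1 * (refl M * refl M) := by
      simp only [mul_assoc]
    rw [this, hR2, one_mul, mul_one]
  have hvV : v ∈ K.V := by rw [D.eV]; exact ⟨1, one_mem _, rfl⟩
  have hsa := D.sa.v
  have hsb := D.sb.v
  have hsc := D.sc.v
  have hv1V : v1 ∈ K.V := by rw [← D.av]; exact (hsa v).2 hvV
  have hμv : μ v = v := by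
    apply Subtype.ext
    rw [← hext v, refl_fix hv]
  have hμv1 : μ v1 = v1 := by
    apply Subtype.ext
    rw [← hext v1, ← D.av, ← ra v hvV]
    have h3 := congrArg (fun f : Module.End ℝ V4 => f v.1) c0
    simp only [Module.End.mul_apply] at h3
    rwa [refl_fix hv] at h3
  have hμμ : ∀ x, μ (μ x) = x := by
    intro x
    apply Subtype.ext
    rw [← hext (μ x), ← hext x]
    exact congrArg (fun f : Module.End ℝ V4 => f x.1) hR2
  have hμμi : ∀ e : Set H3, μ '' (μ '' e) = e := by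
    intro e
    rw [Set.image_image]
    simp only [hμμ, Set.image_id']
  have hμμii : ∀ f : Set (Set H3), (Set.image μ) '' ((Set.image μ) '' f) = f := by
    intro f
    rw [Set.image_image]
    simp only [hμμi, Set.image_id']
  -- words in three generators
  have k3 : ∀ g ∈ G3 a b c, ∃ g' ∈ G3 a b c, (∀ x, g' x ∈ K.V ↔ x ∈ K.V) ∧
      ∀ x ∈ K.V, μ x ∈ K.V → μ (g x) = g' (μ x) := by
    intro g hg
    refine conj_words (Y := {refl n0, refl n1, refl n2}) (Y' := {refl n0, refl n1, refl n2})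
      hM hext ?_ ?_ ?_ ?_ ?_ ?_ hg
    · rintro g (rfl | rfl | rfl)
      exacts [hsa, hsb, hsc]
    · rintro g (rfl | rfl | rfl)
      · exact ⟨_, Or.inl rfl, ra⟩
      · exact ⟨_, Or.inr (Or.inl rfl), rb⟩
      · exact ⟨_, Or.inr (Or.inr rfl), rc⟩
    · rintro g (rfl | rfl | rfl)
      exacts [refl_sq u0, refl_sq u1, refl_sq u2]
    · rintro g (rfl | rfl | rfl)
      · exact Or.inl c0
      · exact Or.inr (Or.inr c1)
      · exact Or.inr (Or.inl c2)
    · rintro g (rfl | rfl | rfl)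
      exacts [hsa, hsb, hsc]
    · rintro g (rfl | rfl | rfl)
      · exact ⟨a, Or.inl rfl, ra⟩
      · exact ⟨b, Or.inr (Or.inl rfl), rb⟩
      · exact ⟨c, Or.inr (Or.inr rfl), rc⟩
  have kab : ∀ g ∈ Subgroup.closure {a, b}, ∃ g' ∈ Subgroup.closure {a, c},
      (∀ x, g' x ∈ K.V ↔ x ∈ K.V) ∧ ∀ x ∈ K.V, μ x ∈ K.V → μ (g x) = g' (μ x) := by
    intro g hg
    refine conj_words (Y := {refl n0, refl n1}) (Y' := {refl n0, refl n2})
      hM hext ?_ ?_ ?_ ?_ ?_ ?_ hg
    · rintro g (rfl | rfl)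
      exacts [hsa, hsb]
    · rintro g (rfl | rfl)
      · exact ⟨_, Or.inl rfl, ra⟩
      · exact ⟨_, Or.inr rfl, rb⟩
    · rintro g (rfl | rfl)
      exacts [refl_sq u0, refl_sq u1]
    · rintro g (rfl | rfl)
      · exact Or.inl c0
      · exact Or.inr c1
    · rintro g (rfl | rfl)
      exacts [hsa, hsc]
    · rintro g (rfl | rfl)
      · exact ⟨a, Or.inl rfl, ra⟩
      · exact ⟨c, Or.inr rfl, rc⟩
  have kac : ∀ g ∈ Subgroup.closure {a, c}, ∃ g' ∈ Subgroup.closure {a, b},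
      (∀ x, g' x ∈ K.V ↔ x ∈ K.V) ∧ ∀ x ∈ K.V, μ x ∈ K.V → μ (g x) = g' (μ x) := by
    intro g hg
    refine conj_words (Y := {refl n0, refl n2}) (Y' := {refl n0, refl n1})
      hM hext ?_ ?_ ?_ ?_ ?_ ?_ hg
    · rintro g (rfl | rfl)
      exacts [hsa, hsc]
    · rintro g (rfl | rfl)
      · exact ⟨_, Or.inl rfl, ra⟩
      · exact ⟨_, Or.inr rfl, rc⟩
    · rintro g (rfl | rfl)
      exacts [refl_sq u0, refl_sq u2]
    · rintro g (rfl | rfl)
      · exact Or.inl c0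
      · exact Or.inr c2
    · rintro g (rfl | rfl)
      exacts [hsa, hsb]
    · rintro g (rfl | rfl)
      · exact ⟨a, Or.inl rfl, ra⟩
      · exact ⟨b, Or.inr rfl, rb⟩
  have hμV : ∀ x ∈ K.V, μ x ∈ K.V := by
    intro x hx
    rw [D.eV] at hx
    obtain ⟨g, hg, rfl⟩ := hx
    obtain ⟨g', hg', hg'V, h⟩ := k3 g hg
    rw [h v hvV (by rw [hμv]; exact hvV), hμv]
    exact (hg'V v).2 hvV
  have he0 : μ '' {v, v1} = {v, v1} := by rw [Set.image_pair, hμv, hμv1]
  have hsubV : ({v, v1} : Set H3) ⊆ K.V := by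
    intro x hx
    rcases hx with rfl | hx
    · exact hvV
    · rw [Set.mem_singleton_iff] at hx; rw [hx]; exact hv1V
  have himg : ∀ (g g' : Equiv.Perm H3), (∀ x ∈ K.V, μ x ∈ K.V → μ (g x) = g' (μ x)) →
      ∀ S ⊆ K.V, μ '' (g '' S) = g' '' (μ '' S) := by
    intro g g' h S hS
    rw [Set.image_image, Set.image_image]
    exact Set.image_congr (fun x hx => h x (hS hx) (hμV x (hS hx)))
  have hE : ∀ e ∈ K.E, μ '' e ∈ K.E := by
    intro e he
    rw [D.eE] at he ⊢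
    obtain ⟨g, hg, rfl⟩ := he
    obtain ⟨g', hg', -, h⟩ := k3 g hg
    exact ⟨g', hg', by rw [himg g g' h _ hsubV, he0]⟩
  have hfab : ∀ w ∈ fc a b {v, v1}, w ⊆ K.V ∧ μ '' w ∈ fc a c {v, v1} := by
    rintro w ⟨k, hk, rfl⟩
    obtain ⟨k', hk', -, h⟩ := kab k hk
    refine ⟨?_, k', hk', by rw [himg k k' h _ hsubV, he0]⟩
    have hkV := (words (V := K.V) (Y := {refl n0, refl n1}) (X := {a, b}) ?_ ?_ ?_ hk).1
    · rintro x ⟨y, hy, rfl⟩
      exact (hkV y).2 (hsubV hy)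
    · rintro g (rfl | rfl)
      exacts [hsa, hsb]
    · rintro g (rfl | rfl)
      · exact ⟨_, Or.inl rfl, ra⟩
      · exact ⟨_, Or.inr rfl, rb⟩
    · rintro g (rfl | rfl)
      exacts [refl_sq u0, refl_sq u1]
  have hfac : ∀ w ∈ fc a c {v, v1}, w ⊆ K.V ∧ μ '' w ∈ fc a b {v, v1} := by
    rintro w ⟨k, hk, rfl⟩
    obtain ⟨k', hk', -, h⟩ := kac k hk
    refine ⟨?_, k', hk', by rw [himg k k' h _ hsubV, he0]⟩
    have hkV := (words (V := K.V) (Y := {refl n0, refl n2}) (X := {a, c}) ?_ ?_ ?_ hk).1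
    · rintro x ⟨y, hy, rfl⟩
      exact (hkV y).2 (hsubV hy)
    · rintro g (rfl | rfl)
      exacts [hsa, hsc]
    · rintro g (rfl | rfl)
      · exact ⟨_, Or.inl rfl, ra⟩
      · exact ⟨_, Or.inr rfl, rc⟩
    · rintro g (rfl | rfl)
      exacts [refl_sq u0, refl_sq u2]
  have hff' : (Set.image μ) '' f = f' := by
    rw [D.ef, D.ef']
    ext w
    constructor
    · rintro ⟨w, hw, rfl⟩
      exact (hfab w hw).2
    · intro hw
      exact ⟨μ '' w, (hfac w hw).2, hμμi w⟩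
  have hf'f : (Set.image μ) '' f' = f := by
    rw [← hff', hμμii]
  have himg2 : ∀ (g g' : Equiv.Perm H3), (∀ x ∈ K.V, μ x ∈ K.V → μ (g x) = g' (μ x)) →
      ∀ S : Set (Set H3), (∀ w ∈ S, w ⊆ K.V) →
      (Set.image μ) '' ((Set.image g) '' S) = (Set.image g') '' ((Set.image μ) '' S) := by
    intro g g' h S hS
    rw [Set.image_image, Set.image_image]
    exact Set.image_congr (fun w hw => himg g g' h w (hS w hw))
  have hF : ∀ h ∈ K.F, (Set.image μ) '' h ∈ K.F := by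
    intro h hh
    rw [D.eF] at hh ⊢
    obtain ⟨g, hg, hgf⟩ := hh
    obtain ⟨g', hg', -, hgg⟩ := k3 g hg
    rcases hgf with rfl | rfl
    · refine ⟨g', hg', Or.inr ?_⟩
      rw [himg2 g g' hgg f (fun w hw => (hfab w (by rwa [← D.ef])).1), hff']
    · refine ⟨g', hg', Or.inl ?_⟩
      rw [himg2 g g' hgg f' (fun w hw => (hfac w (by rwa [← D.ef'])).1), hf'f]
  apply D.out
  refine ⟨μ, ⟨hμ, fun x => ⟨fun h => ?_, hμV x⟩, fun e => ⟨fun h => ?_, hE e⟩,
    fun h => ⟨fun hh => ?_, hF h⟩⟩, hμv, hμv1, hff'⟩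
  · have := hμV _ h
    rwa [hμμ] at this
  · have := hE _ h
    rwa [hμμi] at this
  · have := hF _ hh
    rwa [hμμii] at this

theorem refl_smul {t : ℝ} (ht : t * t = 1) (n : V4) : refl (t • n) = refl n := by
  apply LinearMap.ext
  intro x
  rw [refl_eq, refl_eq, mk_comm (t • n), mk_smul_right, smul_smul, mk_comm x n]
  have : 2 * (t * mk n x) * t = 2 * mk n x := by
    calc 2 * (t * mk n x) * t = 2 * mk n x * (t * t) := by ring
      _ = 2 * mk n x := by rw [ht, mul_one]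
  rw [this]

theorem indep_two {K : Geo} {v v1 : H3} {f f' : Set (Set H3)} {a b c : Equiv.Perm H3} {p q : ℕ}
    (D : D01 K v v1 f f' a b c p q) (hq : 3 ≤ q) {n1 n2 : V4} (u1 : mk n1 n1 = -1)
    (u2 : mk n2 n2 = -1) (rb : RV K.V b (refl n1)) (rc : RV K.V c (refl n2)) :
    LinearIndependent ℝ ![n1, n2] := by
  rw [LinearIndependent.pair_iff]
  intro s t hst
  have hn1 : n1 ≠ 0 := by
    rintro rfl
    rw [mk_zero_right] at u1
    norm_num at u1
  by_cases ht : t = 0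
  · rw [ht, zero_smul, add_zero] at hst
    exact ⟨(smul_eq_zero.mp hst).resolve_right hn1, ht⟩
  · exfalso
    have h1 : n2 = (-s / t) • n1 := by
      have h2 : t • n2 = (-s) • n1 := by
        rw [neg_smul]
        exact eq_neg_of_add_eq_zero_right hst
      rw [div_eq_inv_mul, ← smul_smul, ← h2, smul_smul, inv_mul_cancel₀ ht, one_smul]
    have h2 : (-s / t) * (-s / t) = 1 := by
      have h3 := u2
      rw [h1, mk_smul_right, mk_comm, mk_smul_right, u1] at h3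
      linarith
    have h3 : refl n2 = refl n1 := by rw [h1, refl_smul h2]
    have h4 : q ∣ 2 * 1 := by
      rw [← D.o3 1]
      intro x hx
      rw [pow_one, Equiv.Perm.mul_apply]
      have h5 : c x = b x := by
        apply Subtype.ext
        rw [← rc x hx, ← rb x hx, h3]
      rw [h5, D.bb x hx]
    have := Nat.le_of_dvd (by norm_num) h4
    omega

theorem pf_RFD (hRFM : T_RFM) (hSPV : T_SPV) (hBAL : T_BAL) (hMKI : T_MKI) (hLOR : T_LOR) :
    T_RFD := by
  intro K v v1 f f' a b c p q hK D hp hp3 hq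
  obtain ⟨n0, n1, n2, u0, u1, u2, ra, rb, rc, hsp⟩ := hRFM K v v1 f f' a b c p q hK D hp hp3
  have ra' : RV K.V a (refl n0) := ra
  have rb' : RV K.V b (refl n1) := rb
  have rc' : RV K.V c (refl n2) := rc
  have hvV : v ∈ K.V := by rw [D.eV]; exact ⟨1, one_mem _, rfl⟩
  have hsa := D.sa.v
  have hsb := D.sb.v
  have hsc := D.sc.v
  have hY : ∀ A ∈ ({refl n0, refl n1, refl n2} : Set (Module.End ℝ V4)), A * A = 1 := by
    rintro g (rfl | rfl | rfl)
    exacts [refl_sq u0, refl_sq u1, refl_sq u2]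
  have hXV : ∀ g ∈ ({a, b, c} : Set (Equiv.Perm H3)), ∀ x, g x ∈ K.V ↔ x ∈ K.V := by
    rintro g (rfl | rfl | rfl)
    exacts [hsa, hsb, hsc]
  have hXY : ∀ g ∈ ({a, b, c} : Set (Equiv.Perm H3)),
      ∃ A ∈ ({refl n0, refl n1, refl n2} : Set (Module.End ℝ V4)), RV K.V g A := by
    rintro g (rfl | rfl | rfl)
    · exact ⟨_, Or.inl rfl, ra'⟩
    · exact ⟨_, Or.inr (Or.inl rfl), rb'⟩
    · exact ⟨_, Or.inr (Or.inr rfl), rc'⟩
  have hYX : ∀ A ∈ ({refl n0, refl n1, refl n2} : Set (Module.End ℝ V4)),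
      ∃ g ∈ ({a, b, c} : Set (Equiv.Perm H3)), RV K.V g A := by
    rintro g (rfl | rfl | rfl)
    · exact ⟨a, Or.inl rfl, ra'⟩
    · exact ⟨b, Or.inr (Or.inl rfl), rb'⟩
    · exact ⟨c, Or.inr (Or.inr rfl), rc'⟩
  have hsub : Gam n0 n1 n2 ≤ Submonoid.closure {r | ∃ n : V4, mk n n = -1 ∧
      n ∈ Submodule.span ℝ (Subtype.val '' K.V) ∧ r = refl n} := by
    apply Submonoid.closure_mono
    rintro g (rfl | rfl | rfl)
    · exact ⟨n0, u0, hsp 0, rfl⟩
    · exact ⟨n1, u1, hsp 1, rfl⟩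
    · exact ⟨n2, u2, hsp 2, rfl⟩
  have uniq1 : ∀ A ∈ Gam n0 n1 n2, (∀ x ∈ K.V, A x.1 = x.1) → A = 1 := fun A hA h =>
    hSPV K.V A ⟨v, hvV⟩ (hsub hA) h
  have uniq : ∀ A ∈ Gam n0 n1 n2, ∀ B ∈ Gam n0 n1 n2, (∀ x ∈ K.V, A x.1 = B x.1) → A = B := by
    intro A hA B hB h
    obtain ⟨B', hB', h1, h2⟩ := sub_inv hY hB
    have h3 : B' * A = 1 := by
      apply uniq1 _ (mul_mem hB' hA)
      intro x hx
      rw [Module.End.mul_apply, h x hx, ← Module.End.mul_apply, h2]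
      rfl
    calc A = (B * B') * A := by rw [h1, one_mul]
      _ = B := by rw [mul_assoc, h3, mul_one]
  have m0 : refl n0 ∈ Gam n0 n1 n2 := Submonoid.subset_closure (Or.inl rfl)
  have m1 : refl n1 ∈ Gam n0 n1 n2 := Submonoid.subset_closure (Or.inr (Or.inl rfl))
  have m2 : refl n2 ∈ Gam n0 n1 n2 := Submonoid.subset_closure (Or.inr (Or.inr rfl))
  have hv0 : mk v.1 n0 ≠ 0 := by
    intro h
    apply D.ne
    rw [← D.av]
    apply Subtype.ext
    rw [← ra v hvV, refl_fix (by rw [mk_comm]; exact h)]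
  have hv1 : mk v.1 n1 = 0 := by
    rw [mk_comm]
    apply fix_orth u1
    rw [rb v hvV, D.bv]
  have hv2 : mk v.1 n2 = 0 := by
    rw [mk_comm]
    apply fix_orth u2
    rw [rc v hvV, D.cv]
  have hli2 : LinearIndependent ℝ ![n1, n2] := indep_two D hq u1 u2 rb' rc'
  have hspan : ∀ y ∈ Submodule.span ℝ (Set.range ![n1, n2]), mk v.1 y = 0 := by
    intro y hy
    induction hy using Submodule.span_induction with
    | mem y hy =>
      obtain ⟨i, rfl⟩ := hy
      fin_cases i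
      · exact hv1
      · exact hv2
    | zero => exact mk_zero_right _
    | add x y _ _ hx hy => rw [mk_add_right, hx, hy, add_zero]
    | smul t x _ hx => rw [mk_smul_right, hx, mul_zero]
  have hli : LinearIndependent ℝ ![n0, n1, n2] :=
    linearIndependent_finCons.2 ⟨hli2, fun h => hv0 (hspan n0 h)⟩
  have ordl : ∀ (A : Module.End ℝ V4) (g : Equiv.Perm H3) (m : ℕ), A ∈ Gam n0 n1 n2 →
      RV K.V g A → (∀ x ∈ K.V, g x ∈ K.V) → (A ^ m = 1 ↔ ∀ x ∈ K.V, (g ^ m) x = x) := by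
    intro A g m hA hg hgV
    obtain ⟨h1, h2⟩ := RV_pow hgV hg m
    constructor
    · intro h x hx
      apply Subtype.ext
      rw [← h2 x hx, h]
      rfl
    · intro h
      apply uniq1 _ (pow_mem hA m)
      intro x hx
      rw [h2 x hx, h x hx]
  have rab : RV K.V (a * b) (refl n0 * refl n1) := by
    intro x hx
    rw [Module.End.mul_apply, rb x hx, ra _ ((hsb x).2 hx)]
    rfl
  have rac : RV K.V (a * c) (refl n0 * refl n2) := by
    intro x hx
    rw [Module.End.mul_apply, rc x hx, ra _ ((hsc x).2 hx)]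
    rfl
  have rbc : RV K.V (b * c) (refl n1 * refl n2) := by
    intro x hx
    rw [Module.End.mul_apply, rc x hx, rb _ ((hsc x).2 hx)]
    rfl
  have hdiv : ∀ (g : Equiv.Perm H3), (∀ m : ℕ, (g ^ m) v = v ↔ p ∣ m) →
      (∀ x ∈ K.V, (g ^ p) x = x) → ∀ m : ℕ, (∀ x ∈ K.V, (g ^ m) x = x) ↔ p ∣ m := by
    intro g h1 h2 m
    constructor
    · intro h
      exact (h1 m).1 (h v hvV)
    · rintro ⟨j, rfl⟩ x hx
      rw [pow_mul]
      exact Equiv.Perm.pow_apply_eq_self_of_apply_eq_self (h2 x hx) j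
  obtain ⟨n, hn⟩ := D.q2
  have hqn : q / 2 = n := by omega
  have hn2 : 2 ≤ n := by omega
  have ho3 : ∀ m : ℕ, (refl n1 * refl n2) ^ m = 1 ↔ q / 2 ∣ m := by
    intro m
    rw [ordl _ (b * c) m (mul_mem m1 m2) rbc (fun x hx => (hsb _).2 ((hsc x).2 hx)), D.o3 m, hqn,
      hn, Nat.mul_dvd_mul_iff_left (by norm_num)]
  -- the stabiliser is finite
  have hG3 : ∀ A ∈ Gam n0 n1 n2, ∃ g ∈ G3 a b c, (∀ x, g x ∈ K.V ↔ x ∈ K.V) ∧ RV K.V g A :=
    fun A hA => words' hXV hYX hA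
  have hstab : {s | s ∈ Gam n0 n1 n2 ∧ s v.1 = v.1}.Finite := by
    refine (dih_fin (refl n1) (refl n2) n (by omega) (refl_sq u1) (refl_sq u2)
      ((ho3 n).2 (by rw [hqn]))).subset ?_
    rintro s ⟨hs, hsv⟩
    obtain ⟨g, hg, -, hgs⟩ := hG3 s hs
    have hgv : g v = v := by
      apply Subtype.ext
      rw [← hgs v hvV, hsv]
    obtain ⟨h, hh, hgh⟩ := D.st g hg hgv
    obtain ⟨-, B, hB, hhB⟩ := words (V := K.V) (X := {b, c}) (Y := {refl n1, refl n2}) (by
      rintro g (rfl | rfl)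
      exacts [hsb, hsc]) (by
      rintro g (rfl | rfl)
      · exact ⟨_, Or.inl rfl, rb'⟩
      · exact ⟨_, Or.inr rfl, rc'⟩) (by
      rintro g (rfl | rfl)
      exacts [refl_sq u1, refl_sq u2]) hh
    have hBG : B ∈ Gam n0 n1 n2 := by
      refine Submonoid.closure_mono ?_ hB
      rintro g (rfl | rfl)
      · exact Or.inr (Or.inl rfl)
      · exact Or.inr (Or.inr rfl)
    have : s = B := by
      apply uniq s hs B hBG
      intro x hx
      rw [hgs x hx, hhB x hx, hgh x hx]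
    rw [this]
    exact hB
  -- the vertices are separated
  have hiso : ∀ g ∈ G3 a b c, IsIso g := by
    intro g hg
    unfold G3 at hg
    induction hg using Subgroup.closure_induction with
    | mem x hx =>
      rcases hx with rfl | rfl | rfl
      exacts [D.sa.iso, D.sb.iso, D.sc.iso]
    | one => exact fun _ _ => rfl
    | mul x y _ _ hx hy =>
      intro z w
      rw [Equiv.Perm.mul_apply, Equiv.Perm.mul_apply, hx, hy]
    | inv x _ hx =>
      intro z w
      rw [← hx (x⁻¹ z) (x⁻¹ w)]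
      simp
  obtain ⟨ε, hε, hdis⟩ := hK.dis v hvV
  have hsep : ∀ x ∈ K.V, ∀ y ∈ K.V, x ≠ y → 1 + ε ≤ ch x y := by
    intro x hx y hy hxy
    have hx' := hx
    rw [D.eV] at hx'
    obtain ⟨g, hg, rfl⟩ := hx'
    have hgV := (words hXV hXY hY (inv_mem hg)).1
    rw [← hiso _ (inv_mem hg) (g v) y]
    have h4 : g⁻¹ (g v) = v := by simp
    rw [h4]
    apply hdis
    · exact (hgV y).2 hy
    · intro h5
      apply hxy
      rw [← h5]
      simp
  have hpro : ∀ R : ℝ, {g | g ∈ Gam n0 n1 n2 ∧ mk v.1 (g v.1) ≤ R}.Finite := by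
    intro R
    have hfin := hBAL K.V ε hε hsep v R
    have hfib : ∀ x : H3, {g | g ∈ Gam n0 n1 n2 ∧ g v.1 = x.1}.Finite := by
      intro x
      by_cases hex : ∃ g0 ∈ Gam n0 n1 n2, g0 v.1 = x.1
      · obtain ⟨g0, hg0, hg0x⟩ := hex
        obtain ⟨g0', hg0', h1, h2⟩ := sub_inv hY hg0
        refine (hstab.image (fun s => g0 * s)).subset ?_
        rintro g ⟨hg, hgx⟩
        refine ⟨g0' * g, ⟨mul_mem hg0' hg, ?_⟩, ?_⟩
        · rw [Module.End.mul_apply, hgx, ← hg0x, ← Module.End.mul_apply, h2]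
          rfl
        · simp only
          rw [← mul_assoc, h1, one_mul]
      · have he : {g | g ∈ Gam n0 n1 n2 ∧ g v.1 = x.1} = ∅ :=
          Set.eq_empty_of_forall_notMem (fun g hg => hex ⟨g, hg.1, hg.2⟩)
        rw [he]
        exact Set.finite_empty
    refine (hfin.biUnion (t := fun x : H3 => {g | g ∈ Gam n0 n1 n2 ∧ g v.1 = x.1})
      (fun x _ => hfib x)).subset ?_
    rintro g ⟨hg, hgR⟩
    obtain ⟨γ, hγ, hγV, hγg⟩ := hG3 g hg
    rw [Set.mem_iUnion₂]
    refine ⟨γ v, ⟨(hγV v).2 hvV, ?_⟩, hg, hγg v hvV⟩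
    unfold ch
    rw [← hγg v hvV]
    exact hgR
  -- the angles are different
  have hne : (mk n0 n1) ^ 2 ≠ (mk n0 n2) ^ 2 := by
    intro hsq
    obtain ⟨n2', hn2', h2u, h2v, h2d⟩ : ∃ n2' : V4, (n2 = n2' ∨ n2 = -n2') ∧ mk n2' n2' = -1 ∧
        mk v.1 n2' = 0 ∧ mk n0 n1 = mk n0 n2' := by
      rcases sq_eq_sq_iff_eq_or_eq_neg.mp hsq with h | h
      · exact ⟨n2, Or.inl rfl, u2, hv2, h⟩
      · refine ⟨-n2, Or.inr (neg_neg _).symm, ?_, ?_, ?_⟩
        · rw [mk_neg_right, mk_comm, mk_neg_right, u2]; ring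
        · rw [mk_neg_right, hv2, neg_zero]
        · rw [mk_neg_right]; exact h
    have hd : n1 - n2' ≠ 0 := by
      intro h0
      have h1 : n1 = n2' := sub_eq_zero.mp h0
      have h3 := (LinearIndependent.pair_iff.mp hli2)
      rcases hn2' with h | h
      · have := (h3 1 (-1) (by rw [h1, h]; simp)).1
        norm_num at this
      · have := (h3 1 1 (by rw [h1, h]; simp)).1
        norm_num at this
    have hdv : mk v.1 (n1 - n2') = 0 := by rw [mk_sub_right, hv1, h2v, sub_zero]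
    have hdd := neg_of_orth v _ hdv hd
    have hd1 : mk (n1 - n2') (n1 - n2') = 2 * mk (n1 - n2') n1 := by
      rw [mk_sub_right, mk_comm (n1 - n2') n1, mk_comm (n1 - n2') n2', mk_sub_right, mk_sub_right,
        u1, h2u, mk_comm n2' n1]
      ring
    obtain ⟨N, hN, hNN⟩ : ∃ N : ℝ, 0 < N ∧ N * N = -mk (n1 - n2') (n1 - n2') :=
      ⟨Real.sqrt (-mk (n1 - n2') (n1 - n2')), Real.sqrt_pos.2 (by linarith),
        Real.mul_self_sqrt (by linarith)⟩
    have hM : mk (N⁻¹ • (n1 - n2')) (N⁻¹ • (n1 - n2')) = -1 := by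
      rw [mk_smul_right, mk_comm, mk_smul_right]
      have : mk (n1 - n2') (n1 - n2') = -(N * N) := by linarith
      rw [this]
      field_simp
    have hMx : ∀ x, mk (N⁻¹ • (n1 - n2')) x = N⁻¹ * mk (n1 - n2') x := by
      intro x
      rw [mk_comm, mk_smul_right, mk_comm x]
    have hM0 : mk (N⁻¹ • (n1 - n2')) n0 = 0 := by
      rw [hMx, mk_comm, mk_sub_right, h2d, sub_self, mul_zero]
    have hMv : mk (N⁻¹ • (n1 - n2')) v.1 = 0 := by
      rw [hMx, mk_comm, hdv, mul_zero]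
    have hM12 : refl (N⁻¹ • (n1 - n2')) n1 = n2' := by
      rw [refl_eq, hMx, smul_smul]
      have h3 : 2 * (N⁻¹ * mk (n1 - n2') n1) * N⁻¹ = -1 := by
        have h4 : mk (n1 - n2') n1 = -(N * N) / 2 := by linarith
        rw [h4]
        field_simp
      rw [h3, neg_smul, one_smul]
      abel
    obtain ⟨μ, hμ, hext⟩ := hMKI _ (hLOR.2.2 _ hM).1
    refine sym_aux D u0 u1 u2 ra' rb' rc' hM hM0 hMv ?_ hμ hext
    rw [hM12]
    rcases hn2' with h | h
    · exact Or.inl h.symm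
    · right
      rw [h, neg_neg]
  exact ⟨n0, n1, n2, u0, u1, u2, hv0, hv1, hv2, hli,
    fun m => (ordl _ (a * b) m (mul_mem m0 m1) rab (fun x hx => (hsa _).2 ((hsb x).2 hx))).trans
      (hdiv _ D.o1 D.o1' m),
    fun m => (ordl _ (a * c) m (mul_mem m0 m2) rac (fun x hx => (hsa _).2 ((hsc x).2 hx))).trans
      (hdiv _ D.o2 D.o2' m),
    ho3, by omega, hne, hpro⟩

end Pool.Agent.H20.TOH.R
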