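import Pool.Agent.H39.TO.Targets

/-!
# Board toh_modules, row RFD: tools (reflections, words, dihedral groups)
-/

set_option autoImplicit false

namespace Pool.Agent.H20.TOH.R

open Pool.Agent.H57.CP Pool.Agent.H39.TO

/-! ### The Minkowski product and reflections -/

theorem mk_comm (x y : V4) : mk x y = mk y x := by unfold mk; ring

theorem mk_add_right (x y z : V4) : mk x (y + z) = mk x y + mk x z := by
  simp only [mk, Pi.add_apply]; ring

theorem mk_sub_right (x y z : V4) : mk x (y - z) = mk x y - mk x z := by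
  simp only [mk, Pi.sub_apply]; ring

theorem mk_smul_right (t : ℝ) (x y : V4) : mk x (t • y) = t * mk x y := by
  simp only [mk, Pi.smul_apply, smul_eq_mul]; ring

theorem mk_neg_right (x y : V4) : mk x (-y) = -mk x y := by
  simp only [mk, Pi.neg_apply]; ring

theorem mk_zero_right (x : V4) : mk x 0 = 0 := by
  simp [mk]

theorem refl_eq (a x : V4) : refl a x = x + (2 * mk a x) • a := by
  ext i
  rfl

theorem refl_fix {a x : V4} (h : mk a x = 0) : refl a x = x := by
  rw [refl_eq, h, mul_zero, zero_smul, add_zero]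

theorem refl_neg (a : V4) : refl (-a) = refl a := by
  apply LinearMap.ext
  intro x
  rw [refl_eq, refl_eq, mk_comm (-a), mk_neg_right, mk_comm x a, mul_neg, smul_neg, neg_smul,
    neg_neg]

theorem refl_sq {a : V4} (ha : mk a a = -1) : refl a * refl a = 1 := by
  apply LinearMap.ext
  intro x
  rw [Module.End.mul_apply, refl_eq a (refl a x), refl_eq a x, mk_add_right, mk_smul_right, ha,
    add_assoc, ← add_smul]
  have : 2 * mk a x + 2 * (mk a x + 2 * mk a x * -1) = 0 := by ring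
  rw [this, zero_smul, add_zero]
  rfl

theorem refl_adj (a b x : V4) : mk (refl a b) x = mk b (refl a x) := by
  rw [mk_comm, refl_eq, refl_eq, mk_add_right, mk_add_right, mk_smul_right, mk_smul_right,
    mk_comm x b, mk_comm x a, mk_comm b a]
  ring

theorem refl_conj {a : V4} (ha : mk a a = -1) (b : V4) :
    refl a * refl b * refl a = refl (refl a b) := by
  apply LinearMap.ext
  intro x
  have h := congrArg (fun f : Module.End ℝ V4 => f x) (refl_sq ha)
  simp only [Module.End.mul_apply, Module.End.one_apply] at h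
  rw [Module.End.mul_apply, Module.End.mul_apply, refl_eq b, map_add, h, map_smul,
    refl_eq (refl a b), refl_adj]

/-- vectors orthogonal to a point are spacelike -/
theorem neg_of_orth (v : H3) (d : V4) (h : mk v.1 d = 0) (hd : d ≠ 0) : mk d d < 0 := by
  obtain ⟨v, hv, hv3⟩ := v
  simp only [mk] at h hv ⊢
  by_contra hcon
  rw [not_lt] at hcon
  have h1 : v 3 * d 3 = v 0 * d 0 + v 1 * d 1 + v 2 * d 2 := by linarith
  have h2 : (v 3 * d 3) ^ 2 ≤ (v 0 ^ 2 + v 1 ^ 2 + v 2 ^ 2) * (d 0 ^ 2 + d 1 ^ 2 + d 2 ^ 2) := by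
    rw [h1]
    nlinarith [sq_nonneg (v 0 * d 1 - v 1 * d 0), sq_nonneg (v 0 * d 2 - v 2 * d 0),
      sq_nonneg (v 1 * d 2 - v 2 * d 1)]
  have h3 : v 0 ^ 2 + v 1 ^ 2 + v 2 ^ 2 = v 3 ^ 2 - 1 := by linarith
  rw [h3] at h2
  have h4 : d 0 ^ 2 + d 1 ^ 2 + d 2 ^ 2 ≤ 0 := by nlinarith [sq_nonneg (v 3), mul_nonneg (sq_nonneg (v 3)) hcon]
  have h5 : d 0 = 0 := by nlinarith [sq_nonneg (d 0), sq_nonneg (d 1), sq_nonneg (d 2)]
  have h6 : d 1 = 0 := by nlinarith [sq_nonneg (d 0), sq_nonneg (d 1), sq_nonneg (d 2)]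
  have h7 : d 2 = 0 := by nlinarith [sq_nonneg (d 0), sq_nonneg (d 1), sq_nonneg (d 2)]
  have h8 : d 3 = 0 := by
    rw [h5, h6, h7] at h1
    have : v 3 * d 3 = 0 := by linarith
    rcases mul_eq_zero.mp this with h9 | h9
    · exact absurd h9 hv3.ne'
    · exact h9
  apply hd
  ext i
  fin_cases i
  · exact h5
  · exact h6
  · exact h7
  · exact h8

/-! ### Words -/

/-- the linear map agrees with the bijection on `V` -/
def RV (V : Set H3) (g : Equiv.Perm H3) (A : Module.End ℝ V4) : Prop := ∀ x ∈ V, A x.1 = (g x).1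

theorem sub_inv {Y : Set (Module.End ℝ V4)} (hY : ∀ A ∈ Y, A * A = 1) {A : Module.End ℝ V4}
    (hA : A ∈ Submonoid.closure Y) : ∃ B ∈ Submonoid.closure Y, A * B = 1 ∧ B * A = 1 := by
  induction hA using Submonoid.closure_induction with
  | mem x hx => exact ⟨x, Submonoid.subset_closure hx, hY x hx, hY x hx⟩
  | one => exact ⟨1, one_mem _, one_mul _, one_mul _⟩
  | mul x y _ _ hx hy =>
    obtain ⟨x', hx', h1, h2⟩ := hx
    obtain ⟨y', hy', h3, h4⟩ := hy
    refine ⟨y' * x', mul_mem hy' hx', ?_, ?_⟩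
    · rw [mul_assoc, ← mul_assoc y, h3, one_mul, h1]
    · rw [mul_assoc, ← mul_assoc x', h2, one_mul, h4]

theorem words {V : Set H3} {X : Set (Equiv.Perm H3)} {Y : Set (Module.End ℝ V4)}
    (hXV : ∀ g ∈ X, ∀ x, g x ∈ V ↔ x ∈ V) (h1 : ∀ g ∈ X, ∃ A ∈ Y, RV V g A)
    (hY : ∀ A ∈ Y, A * A = 1) {g : Equiv.Perm H3} (hg : g ∈ Subgroup.closure X) :
    (∀ x, g x ∈ V ↔ x ∈ V) ∧ ∃ A ∈ Submonoid.closure Y, RV V g A := by
  induction hg using Subgroup.closure_induction with
  | mem x hx =>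
    refine ⟨hXV x hx, ?_⟩
    obtain ⟨A, hA, h2⟩ := h1 x hx
    exact ⟨A, Submonoid.subset_closure hA, h2⟩
  | one => exact ⟨fun x => Iff.rfl, 1, one_mem _, fun x _ => rfl⟩
  | mul x y _ _ hx hy =>
    obtain ⟨hx1, A, hA, hA'⟩ := hx
    obtain ⟨hy1, B, hB, hB'⟩ := hy
    refine ⟨fun z => (hx1 (y z)).trans (hy1 z), A * B, mul_mem hA hB, fun z hz => ?_⟩
    rw [Module.End.mul_apply, hB' z hz, hA' (y z) ((hy1 z).2 hz)]
    rfl
  | inv x _ hx =>
    obtain ⟨hx1, A, hA, hA'⟩ := hx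
    obtain ⟨B, hB, h2, h3⟩ := sub_inv hY hA
    have h4 : ∀ z, x⁻¹ z ∈ V ↔ z ∈ V := fun z => by
      rw [← hx1 (x⁻¹ z), ← Equiv.Perm.mul_apply, mul_inv_cancel, Equiv.Perm.one_apply]
    refine ⟨h4, B, hB, fun z hz => ?_⟩
    have h5 := hA' (x⁻¹ z) ((h4 z).2 hz)
    rw [← Equiv.Perm.mul_apply x x⁻¹, mul_inv_cancel, Equiv.Perm.one_apply] at h5
    rw [← h5, ← Module.End.mul_apply, h3]
    rfl

theorem words' {V : Set H3} {X : Set (Equiv.Perm H3)} {Y : Set (Module.End ℝ V4)}
    (hXV : ∀ g ∈ X, ∀ x, g x ∈ V ↔ x ∈ V) (h1 : ∀ A ∈ Y, ∃ g ∈ X, RV V g A)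
    {A : Module.End ℝ V4} (hA : A ∈ Submonoid.closure Y) :
    ∃ g ∈ Subgroup.closure X, (∀ x, g x ∈ V ↔ x ∈ V) ∧ RV V g A := by
  induction hA using Submonoid.closure_induction with
  | mem x hx =>
    obtain ⟨g, hg, h2⟩ := h1 x hx
    exact ⟨g, Subgroup.subset_closure hg, hXV g hg, h2⟩
  | one => exact ⟨1, one_mem _, fun x => Iff.rfl, fun x _ => rfl⟩
  | mul x y _ _ hx hy =>
    obtain ⟨g, hg, hg1, hg2⟩ := hx
    obtain ⟨h, hh, hh1, hh2⟩ := hy
    refine ⟨g * h, mul_mem hg hh, fun z => (hg1 (h z)).trans (hh1 z), fun z hz => ?_⟩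
    rw [Module.End.mul_apply, hh2 z hz, hg2 (h z) ((hh1 z).2 hz)]
    rfl

theorem conj_mem {Y Y' : Set (Module.End ℝ V4)} {M : Module.End ℝ V4} (hM : M * M = 1)
    (h : ∀ A ∈ Y, M * A * M ∈ Y') {A : Module.End ℝ V4} (hA : A ∈ Submonoid.closure Y) :
    M * A * M ∈ Submonoid.closure Y' := by
  induction hA using Submonoid.closure_induction with
  | mem x hx => exact Submonoid.subset_closure (h x hx)
  | one => rw [mul_one, hM]; exact one_mem _
  | mul x y _ _ hx hy =>
    have e : M * (x * y) * M = M * x * M * (M * y * M) := by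
      have : M * x * M * (M * y * M) = M * x * (M * M) * y * M := by
        simp only [mul_assoc]
      rw [this, hM, mul_one]
      simp only [mul_assoc]
    rw [e]
    exact mul_mem hx hy

theorem RV_pow {V : Set H3} {g : Equiv.Perm H3} {A : Module.End ℝ V4} (hg : ∀ x ∈ V, g x ∈ V)
    (h : RV V g A) (m : ℕ) : (∀ x ∈ V, (g ^ m) x ∈ V) ∧ RV V (g ^ m) (A ^ m) := by
  induction m with
  | zero => exact ⟨fun x hx => hx, fun x _ => rfl⟩
  | succ m ih =>
    obtain ⟨h1, h2⟩ := ih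
    refine ⟨fun x hx => ?_, fun x hx => ?_⟩
    · rw [pow_succ, Equiv.Perm.mul_apply]
      exact h1 _ (hg x hx)
    · rw [pow_succ, pow_succ, Module.End.mul_apply, h x hx, h2 _ (hg x hx)]
      rfl

/-- dihedral groups are finite -/
theorem dih_fin {M : Type*} [Monoid M] (x y : M) (n : ℕ) (hn : 1 ≤ n) (hx : x * x = 1)
    (hy : y * y = 1) (hxy : (x * y) ^ n = 1) :
    (Submonoid.closure {x, y} : Set M).Finite := by
  have hmod : ∀ k : ℕ, (x * y) ^ k = (x * y) ^ (k % n) := by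
    intro k
    conv_lhs => rw [← Nat.div_add_mod k n, pow_add, pow_mul, hxy, one_pow, one_mul]
  have hfin : (((fun k : ℕ => (x * y) ^ k) '' (Set.Iio n)) ∪
      ((fun k : ℕ => (x * y) ^ k * x) '' (Set.Iio n))).Finite :=
    ((Set.finite_Iio n).image _).union ((Set.finite_Iio n).image _)
  refine hfin.subset ?_
  intro z hz
  have hkey : ∃ k : ℕ, z = (x * y) ^ k ∨ z = (x * y) ^ k * x := by
    have hz' : z ∈ Submonoid.closure {x, y} := hz
    induction hz' using Submonoid.closure_induction_right with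
    | one => exact ⟨0, Or.inl (pow_zero _).symm⟩
    | mul_right w _ t ht hw =>
      obtain ⟨k, hk⟩ := hw (by assumption)
      rcases ht with rfl | ht
      · rcases hk with rfl | rfl
        · exact ⟨k, Or.inr rfl⟩
        · exact ⟨k, Or.inl (by rw [mul_assoc, hx, mul_one])⟩
      · rw [Set.mem_singleton_iff] at ht
        subst ht
        rcases hk with rfl | rfl
        · refine ⟨k + (n - 1), Or.inr ?_⟩
          have h1 : (x * t) ^ k = (x * t) ^ (k + (n - 1)) * (x * t) := by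
            rw [← pow_succ]
            have : k + (n - 1) + 1 = k + n := by omega
            rw [this, pow_add, hxy, mul_one]
          rw [h1, mul_assoc, mul_assoc x t t, hy, mul_one]
        · exact ⟨k + 1, Or.inl (by rw [mul_assoc, ← pow_succ])⟩
  obtain ⟨k, hk⟩ := hkey
  have hkn : k % n < n := Nat.mod_lt _ (by omega)
  rcases hk with rfl | rfl
  · exact Or.inl ⟨k % n, hkn, (hmod k).symm⟩
  · exact Or.inr ⟨k % n, hkn, by simp only; rw [← hmod k]⟩

end Pool.Agent.H20.TOH.R
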